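import Pool.Agent.Lib.MP_a55e6f_al.Uni.Interfaces

/-!
# MP_a55e6f_al, module S3: from a left dependence over `B` to one over `U_{D_0}` modulo `W_N`
-/

set_option autoImplicit false

universe u

attribute [local instance 100] LieRing.ofAssociativeRing

namespace Pool.Agent.A55u.H76

open MonoidAlgebra

section general
variable {k M : Type u} [Field k]

theorem comp_coeff (z : M → ℕ) (n : ℕ) (b : MonoidAlgebra k M) (w : M) :
    (comp z n b).coeff w = if z w = n then b.coeff w else 0 := by
  classical
  simp [comp, proj_coeff]

theorem comp_single (z : M → ℕ) (n : ℕ) (w : M) (c : k) :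
    comp z n (single w c) = if z w = n then single w c else 0 := by
  classical
  ext t
  rw [comp_coeff]
  by_cases h : w = t
  · subst h
    split_ifs <;> simp
  · have h0 : (single w c : MonoidAlgebra k M).coeff t = 0 := by
      rw [coeff_single, Finsupp.single_apply, if_neg h]
    split_ifs
    · rfl
    · exact h0
    · exact h0.symm
    · simp

theorem comp_of_hom {z : M → ℕ} {n : ℕ} {b : MonoidAlgebra k M} (h : Hom z n b) (m : ℕ) :
    comp z m b = if n = m then b else 0 := by
  classical
  ext t
  rw [comp_coeff]
  by_cases hb : b.coeff t = 0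
  · split_ifs <;> simp [hb]
  · rw [h t hb]
    split_ifs <;> simp

theorem hom_comp (z : M → ℕ) (n : ℕ) (b : MonoidAlgebra k M) : Hom z n (comp z n b) := by
  intro w hw
  rw [comp_coeff] at hw
  by_contra h
  simp [h] at hw

variable [Monoid M]

theorem comp_mul {z : M → ℕ} (hz : IsAdd z) (n : ℕ) (a b : MonoidAlgebra k M) :
    comp z n (a * b) = ∑ p ∈ Finset.HasAntidiagonal.antidiagonal n, comp z p.1 a * comp z p.2 b := by
  classical
  induction a using MonoidAlgebra.induction_linear with
  | zero => simp
  | add a a' ha ha' =>
    simp only [add_mul, map_add, Finset.sum_add_distrib, ha, ha']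
  | single u s =>
    induction b using MonoidAlgebra.induction_linear with
    | zero => simp
    | add b b' hb hb' =>
      simp only [mul_add, map_add, Finset.sum_add_distrib, hb, hb']
    | single t c =>
      rw [single_mul_single, comp_single, hz.map_mul]
      simp only [comp_single]
      split_ifs with h
      · rw [Finset.sum_eq_single (z u, z t)]
        · simp [single_mul_single]
        · rintro ⟨p, q⟩ _ hne
          by_cases h1 : z u = p
          · by_cases h2 : z t = q
            · exact absurd (by rw [← h1, ← h2]) hne
            · simp [h2]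
          · simp [h1]
        · intro hh
          exact absurd (Finset.HasAntidiagonal.mem_antidiagonal.2 h) hh
      · symm
        apply Finset.sum_eq_zero
        rintro ⟨p, q⟩ hpq
        have hpq := Finset.HasAntidiagonal.mem_antidiagonal.1 hpq
        by_cases h1 : z u = p
        · by_cases h2 : z t = q
          · exact absurd (by rw [h1, h2]; exact hpq) h
          · simp [h2]
        · simp [h1]

theorem comp_mul_hom {z : M → ℕ} (hz : IsAdd z) (n w : ℕ) (a y : MonoidAlgebra k M)
    (hy : Hom z w y) :
    comp z n (a * y) = if w ≤ n then comp z (n - w) a * y else 0 := by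
  classical
  rw [comp_mul hz]
  split_ifs with h
  · rw [Finset.sum_eq_single (n - w, w)]
    · rw [comp_of_hom hy, if_pos rfl]
    · rintro ⟨p, q⟩ hpq hne
      have hpq := Finset.HasAntidiagonal.mem_antidiagonal.1 hpq
      simp only at hpq
      have : w ≠ q := by
        rintro rfl
        apply hne
        rw [← hpq]; simp
      rw [comp_of_hom hy, if_neg this, mul_zero]
    · intro hh
      exact absurd (Finset.HasAntidiagonal.mem_antidiagonal.2 (by simp; omega)) hh
  · apply Finset.sum_eq_zero
    rintro ⟨p, q⟩ hpq
    have hpq := Finset.HasAntidiagonal.mem_antidiagonal.1 hpq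
    simp only at hpq
    rw [comp_of_hom hy, if_neg (by omega), mul_zero]

theorem comp_bracket {z : M → ℕ} (hz : IsAdd z) (n : ℕ) (a b : MonoidAlgebra k M) :
    comp z n ⁅a, b⁆ = ∑ p ∈ Finset.HasAntidiagonal.antidiagonal n, ⁅comp z p.1 a, comp z p.2 b⁆ := by
  simp only [LieRing.of_associative_ring_bracket, map_sub, comp_mul hz, Finset.sum_sub_distrib]
  congr 1
  rw [← Finset.Nat.sum_antidiagonal_swap]
  rfl

/-- A Lie subalgebra generated by homogeneous elements is graded. -/
theorem graded_lieSpan {z : M → ℕ} (hz : IsAdd z) (S : Set (MonoidAlgebra k M))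
    (hS : ∀ s ∈ S, ∃ n, Hom z n s) :
    Graded z (LieSubalgebra.lieSpan k (MonoidAlgebra k M) S) := by
  classical
  intro n g hg
  induction hg using LieSubalgebra.lieSpan_induction generalizing n with
  | mem s hs =>
    obtain ⟨m, hm⟩ := hS s hs
    rw [comp_of_hom hm]
    split_ifs
    · exact LieSubalgebra.subset_lieSpan hs
    · exact zero_mem _
  | zero => simp
  | add a b _ _ ha hb => rw [map_add]; exact add_mem (ha n) (hb n)
  | smul c a _ ha => rw [map_smul]; exact SMulMemClass.smul_mem _ (ha n)
  | lie a b _ _ ha hb =>
    rw [comp_bracket hz]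
    exact sum_mem fun p _ => LieSubalgebra.lie_mem _ (ha p.1) (hb p.2)

end general

/-! ## cofactors -/

section cof
variable {k X : Type u} [Field k]

theorem of_mul_inj (a : X) : Function.Injective (fun w : FreeMonoid X => FreeMonoid.of a * w) := by
  intro u v h
  exact mul_left_cancel h

/-- The left cofactor of the letter `a`. -/
noncomputable def pre (a : X) : FA k X →ₗ[k] FA k X where
  toFun b := .ofCoeff (b.coeff.comapDomain (fun w => FreeMonoid.of a * w)
    (of_mul_inj a).injOn)
  map_add' b c := by ext w; simp
  map_smul' r b := by ext w; simp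

theorem pre_coeff (a : X) (b : FA k X) (w : FreeMonoid X) :
    (pre a b).coeff w = b.coeff (FreeMonoid.of a * w) := by
  simp [pre]

theorem pre_mul (a : X) (b c : FA k X) :
    pre a (b * c) = pre a b * c + b.coeff 1 • pre a c := by
  classical
  induction b using MonoidAlgebra.induction_linear with
  | zero => simp
  | add b b' hb hb' =>
    rw [add_mul, map_add, map_add, add_mul, hb, hb', coeff_add, Finsupp.add_apply, add_smul]
    abel
  | single u s =>
    have key : ∀ (u : FreeMonoid X) (s : k), pre a (single (FreeMonoid.of a * u) s)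
        = (single u s : FA k X) := by
      intro u s
      ext w
      rw [pre_coeff, coeff_single, coeff_single, Finsupp.single_apply, Finsupp.single_apply]
      simp
    have key0 : ∀ (t : FreeMonoid X) (s : k), (∀ w, t ≠ FreeMonoid.of a * w) →
        pre a (single t s : FA k X) = 0 := by
      intro t s ht
      ext w
      rw [pre_coeff, coeff_single, Finsupp.single_apply, if_neg (ht w)]
      simp
    induction u using FreeMonoid.casesOn with
    | one =>
      have h1 : pre a (single (1 : FreeMonoid X) s : FA k X) = 0 := by
        apply key0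
        intro w h
        have := congrArg FreeMonoid.length h
        simp at this
        omega
      rw [h1]
      simp only [zero_mul, zero_add]
      have : (single (1 : FreeMonoid X) s : FA k X) * c = s • c := by
        ext w
        rw [coeff_single_one_mul]
        simp
      rw [this, map_smul]
      simp
    | of_mul b u =>
      have h1 : (single (FreeMonoid.of b * u) s : FA k X).coeff 1 = 0 := by
        rw [coeff_single, Finsupp.single_apply, if_neg]
        intro h
        have := congrArg FreeMonoid.length h
        simp at this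
      rw [h1, zero_smul, add_zero]
      by_cases hab : a = b
      · subst hab
        rw [key]
        induction c using MonoidAlgebra.induction_linear with
        | zero => simp
        | add c c' hc hc' => rw [mul_add, map_add, mul_add, hc, hc']
        | single t s' => rw [single_mul_single, single_mul_single, mul_assoc, key]
      · have hne : ∀ t : FreeMonoid X, ∀ w, FreeMonoid.of b * t ≠ FreeMonoid.of a * w := by
          intro t w h
          have := congrArg (fun l => (FreeMonoid.toList l).head?) h
          simp at this
          exact hab this.symm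
        rw [key0 _ _ (hne u)]
        induction c using MonoidAlgebra.induction_linear with
        | zero => simp
        | add c c' hc hc' => rw [mul_add, map_add, mul_add, hc, hc']
        | single t s' => rw [single_mul_single, mul_assoc, key0 _ _ (hne _), zero_mul]

end cof

/-! ## relations -/

section rel
variable {k Y : Type u} [Field k]

theorem isAdd_zd : IsAdd (zd : FreeMonoid (Y ⊕ Y) → ℕ) where
  map_one := by simp [zd]
  map_mul a b := by simp [zd, FreeMonoid.toList_mul]

theorem zd_inl (c : Y) (w : FreeMonoid (Y ⊕ Y)) : zd (FreeMonoid.of (Sum.inl c) * w) = zd w := by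
  rw [isAdd_zd.map_mul]; simp [zd]

theorem zd_inr (c : Y) (w : FreeMonoid (Y ⊕ Y)) :
    zd (FreeMonoid.of (Sum.inr c) * w) = zd w + 1 := by
  rw [isAdd_zd.map_mul]; simp [zd]; omega

/-- relations of total degree `n` supported in `s` -/
structure Rel {I : Type u} (y : I → BA k Y) (w : I → ℕ) (s : Finset I) (n : ℕ)
    (r : I → BA k Y) : Prop where
  hom : ∀ i, w i ≤ n → Hom zd (n - w i) (r i)
  zero : ∀ i, n < w i → r i = 0
  supp : ∀ i, i ∉ s → r i = 0
  sum : ∑ i ∈ s, r i * y i = 0
  ne : ∃ i, r i ≠ 0

theorem exists_coeff {X : Type u} {b : FA k X} (h : b ≠ 0) : ∃ w, b.coeff w ≠ 0 := by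
  by_contra hh
  push Not at hh
  exact h (by ext w; simp [hh w])

theorem exists_rel {I : Type u} (y : I → BA k Y) (w : I → ℕ) (hy : ∀ i, Hom zd (w i) (y i))
    (h : ¬ LinearIndependent (BA k Y) y) : ∃ s n r, Rel y w s n r := by
  classical
  rw [linearIndependent_iff'] at h
  push Not at h
  obtain ⟨s, g, hg, i, hi, hgi⟩ := h
  obtain ⟨t, ht⟩ := exists_coeff hgi
  refine ⟨s, zd t + w i, fun i' => if i' ∈ s ∧ w i' ≤ zd t + w i then
    comp zd (zd t + w i - w i') (g i') else 0, ?_, ?_, ?_, ?_, ?_⟩
  · intro j hj
    by_cases hs : j ∈ s
    · simp only [hs, hj, and_self, if_true]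
      exact hom_comp _ _ _
    · simp only [hs, false_and, if_false]
      intro t' ht'
      simp at ht'
  · intro j hj
    rw [if_neg]
    rintro ⟨_, h2⟩
    omega
  · intro j hj
    rw [if_neg]
    rintro ⟨h1, _⟩
    exact hj h1
  · have h1 : comp zd (zd t + w i) (∑ i ∈ s, g i • y i) = 0 := by rw [hg, map_zero]
    rw [map_sum] at h1
    refine Eq.trans (Finset.sum_congr rfl ?_) h1
    intro j hj
    rw [smul_eq_mul, comp_mul_hom isAdd_zd _ _ _ _ (hy j)]
    simp only [hj, true_and]
    split_ifs <;> simp
  · refine ⟨i, ?_⟩
    simp only [hi, true_and]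
    rw [if_pos (by omega)]
    intro h0
    have : (comp zd (zd t + w i - w i) (g i)).coeff t = 0 := by rw [h0]; simp
    rw [comp_coeff, if_pos (by omega)] at this
    exact ht this

theorem no_low_rel {I : Type u} (y : I → BA k Y) (w : I → ℕ) (s : Finset I) (N : ℕ)
    (hmin : ∀ n < N, ∀ r, ¬ Rel y w s n r) (t : FreeMonoid (Y ⊕ Y)) :
    ∀ r, Rel y w s N r → (∀ i, w i = N → r i = 0) → ∀ i, (r i).coeff t = 0 := by
  have one0 : ∀ r, Rel y w s N r → (∀ i, w i = N → r i = 0) → ∀ i, (r i).coeff 1 = 0 := by
    intro r hr htop i
    rcases lt_trichotomy (w i) N with h | h | h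
    · by_contra hne
      have := hr.hom i h.le 1 hne
      rw [isAdd_zd.map_one] at this
      omega
    · rw [htop i h]; simp
    · rw [hr.zero i h]; simp
  induction t using FreeMonoid.inductionOn' with
  | one => exact one0
  | of_mul a t ih =>
    intro r hr htop i
    have hc := one0 r hr htop
    have hsum : ∑ i ∈ s, pre a (r i) * y i = 0 := by
      have h1 : pre a (∑ i ∈ s, r i * y i) = 0 := by rw [hr.sum, map_zero]
      rw [map_sum] at h1
      refine Eq.trans (Finset.sum_congr rfl ?_) h1
      intro j _
      rw [pre_mul, hc j, zero_smul, add_zero]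
    by_contra hne
    rw [← pre_coeff] at hne
    have hne' : pre a (r i) ≠ 0 := by
      intro h0; rw [h0] at hne; simp at hne
    rcases a with c | c
    · apply hne
      apply ih (fun i => pre (Sum.inl c) (r i))
      · refine ⟨?_, ?_, ?_, hsum, i, hne'⟩
        · intro i hi w' hw'
          rw [pre_coeff] at hw'
          have := hr.hom i hi _ hw'
          rwa [zd_inl] at this
        · intro i hi; simp [hr.zero i hi]
        · intro i hi; simp [hr.supp i hi]
      · intro i hi; simp [htop i hi]
    · 
      have hlt : w i < N := by
        by_contra hh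
        rcases eq_or_lt_of_le (not_lt.1 hh) with h | h
        · exact hne' (by simp [htop i h.symm])
        · exact hne' (by simp [hr.zero i h])
      refine hmin (N - 1) (by omega) (fun i => pre (Sum.inr c) (r i))
        ⟨?_, ?_, ?_, hsum, i, hne'⟩
      · intro j hj w' hw'
        rw [pre_coeff] at hw'
        have := hr.hom j (by omega) _ hw'
        rw [zd_inr] at this
        omega
      · intro j hj
        rcases eq_or_lt_of_le (show N ≤ w j by omega) with h | h
        · simp [htop j h.symm]
        · simp [hr.zero j h]
      · intro j hj; simp [hr.supp j hj]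

/-- Right multiplication by letters is injective on families. -/
theorem letters_indep {J : Type u} (s : Finset J) (u : J → FA k J)
    (h : ∑ j ∈ s, u j * letter k j = 0) : ∀ j ∈ s, u j = 0 := by
  classical
  intro j hj
  ext t
  have h1 : (∑ j ∈ s, u j * letter k j).coeff (t * FreeMonoid.of j) = 0 := by rw [h]; simp
  rw [coeff_sum, Finset.sum_apply'] at h1
  rw [Finset.sum_eq_single j] at h1
  · rw [letter, of_apply, coeff_mul_single_eq_coeff_mul t] at h1
    · simpa using h1
    · intro m' _
      simp
  · intro j' _ hne
    rw [letter, of_apply, coeff_mul_single_of_forall_mul_ne]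
    intro d hd
    have := congrArg (fun l => (FreeMonoid.toList l).getLast?) hd
    simp at this
    exact hne this
  · intro hh; exact absurd hj hh

end rel

theorem s3 (hP : P3rStatement.{u}) : S3Statement.{u} := by
  intro k Y _ G hG J τ hτG hτ0 hfree m x v hv hxG hx hdep
  classical
  set y : J ⊕ Fin m → BA k Y := Sum.elim τ x with hyd
  set w : J ⊕ Fin m → ℕ := Sum.elim (fun _ => 0) v with hwd
  have hy : ∀ i, Hom zd (w i) (y i) := by
    rintro (j | i)
    · exact hτ0 j
    · exact hx i
  obtain ⟨s, hs⟩ : ∃ s, ∃ n r, Rel y w s n r := exists_rel y w hy hdep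
  obtain ⟨r, hr⟩ := Nat.find_spec hs
  set N := Nat.find hs with hN
  have hmin : ∀ n < N, ∀ r, ¬ Rel y w s n r := fun n hn r hh => Nat.find_min hs hn ⟨r, hh⟩
  clear_value N
  set H := LieSubalgebra.lieSpan k (BA k Y) (Set.range y) with hH
  have hyH : ∀ i, y i ∈ H := fun i => LieSubalgebra.subset_lieSpan ⟨i, rfl⟩
  have hHG : H ≤ G := by
    rw [hH, LieSubalgebra.lieSpan_le]
    rintro _ ⟨j | i, rfl⟩
    · exact hτG j
    · exact hxG i
  have hHgr : Graded zd H := by
    apply graded_lieSpan isAdd_zd
    rintro _ ⟨i, rfl⟩
    exact ⟨_, hy i⟩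
  have hyU : ∀ i, y i ∈ Algebra.adjoin k (H : Set (BA k Y)) :=
    fun i => Algebra.subset_adjoin (hyH i)
  obtain ⟨r, hr, hrU⟩ : ∃ r, Rel y w s N r ∧ ∀ i, r i ∈ Algebra.adjoin k (H : Set (BA k Y)) := by
    obtain ⟨i0, hi0⟩ := hr.ne
    obtain ⟨d, π, hπ0, hπH, hπmul, hπhom⟩ :=
      hP k _ zd isAdd_zd G hG.env hG.graded H hHG hHgr (r i0) hi0
    have hwi0 : w i0 ≤ N := by
      by_contra h
      exact hi0 (hr.zero i0 (not_le.1 h))
    have hdN : d ≤ N - w i0 := by
      by_contra h
      exact hπ0 ((hπhom _ _ (hr.hom i0 hwi0)).2 (not_le.1 h))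
    have hr' : Rel y w s (N - d) (fun i => π (r i)) := by
      refine ⟨?_, ?_, ?_, ?_, i0, hπ0⟩
      · intro i hi
        have := (hπhom _ _ (hr.hom i (by omega))).1 (by omega)
        have h2 : N - w i - d = N - d - w i := by omega
        rwa [h2] at this
      · intro i hi
        rcases le_or_gt (w i) N with h | h
        · exact (hπhom _ _ (hr.hom i h)).2 (by omega)
        · simp [hr.zero i h]
      · intro i hi
        simp [hr.supp i hi]
      · have h1 : π (∑ i ∈ s, r i * y i) = 0 := by rw [hr.sum, map_zero]
        rw [map_sum] at h1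
        refine Eq.trans (Finset.sum_congr rfl ?_) h1
        intro j _
        rw [hπmul _ _ (hyU j)]
    have hd0 : d = 0 := by
      by_contra hd
      exact hmin (N - d) (by omega) _ hr'
    subst hd0
    exact ⟨_, hr', fun i => hπH _⟩
  have hU0 : ∀ a ∈ Algebra.adjoin k (H : Set (BA k Y)), Hom zd 0 a →
      ∃ u : FA k J, ev τ u = a := by
    have key : ∀ a ∈ Algebra.adjoin k (H : Set (BA k Y)), comp zd 0 a ∈ (ev (k := k) τ).range := by
      intro a ha
      induction ha using Algebra.adjoin_induction with
      | mem g hg =>
        have hg' : g ∈ LieSubalgebra.lieSpan k (BA k Y) (Set.range y) := hg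
        clear hg
        induction hg' using LieSubalgebra.lieSpan_induction with
        | mem g hg =>
          obtain ⟨j | i, rfl⟩ := hg
          · rw [comp_of_hom (hy _)]
            simp only [hwd, Sum.elim_inl, if_true, hyd]
            exact ⟨letter k j, ev_letter _ _⟩
          · rw [comp_of_hom (hy _)]
            have := hv i
            rw [if_neg (by simp only [hwd, Sum.elim_inr]; omega)]
            exact zero_mem _
        | zero => rw [map_zero]; exact zero_mem _
        | add a b _ _ ha hb => rw [map_add]; exact add_mem ha hb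
        | smul c a _ ha => rw [map_smul]; exact Subalgebra.smul_mem _ ha c
        | lie a b _ _ ha hb =>
          rw [comp_bracket isAdd_zd]
          simp only [Finset.Nat.antidiagonal_zero, Finset.sum_singleton]
          rw [LieRing.of_associative_ring_bracket]
          exact sub_mem (mul_mem ha hb) (mul_mem hb ha)
      | algebraMap c =>
        have : Hom zd 0 (algebraMap k (BA k Y) c) := by
          intro t ht
          rw [MonoidAlgebra.coe_algebraMap] at ht
          simp only [Function.comp_apply, coeff_single, Finsupp.single_apply] at ht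
          by_cases h1 : 1 = t
          · rw [← h1]; exact isAdd_zd.map_one
          · simp [h1] at ht
        rw [comp_of_hom this, if_pos rfl]
        exact Subalgebra.algebraMap_mem _ _
      | add a b _ _ ha hb => rw [map_add]; exact add_mem ha hb
      | mul a b _ _ ha hb =>
        rw [comp_mul isAdd_zd]
        simp only [Finset.Nat.antidiagonal_zero, Finset.sum_singleton]
        exact mul_mem ha hb
    intro a ha h0
    have := key a ha
    rw [comp_of_hom h0, if_pos rfl] at this
    exact this
  have hN1 : 1 ≤ N := by
    by_contra hlt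
    have hN0 : N = 0 := by omega
    subst hN0
    have hx0 : ∀ i, r (Sum.inr i) = 0 := fun i => hr.zero _ (by
      have := hv i
      simp only [hwd, Sum.elim_inr]; omega)
    have hex : ∀ j, ∃ u : FA k J, ev τ u = r (Sum.inl j) := fun j =>
      hU0 _ (hrU _) (by simpa [hwd] using hr.hom (Sum.inl j) (by simp [hwd]))
    choose u hu using hex
    have h1 : ∑ j ∈ s.toLeft, u j * letter k j = 0 := by
      apply hfree
      rw [map_zero, map_sum, ← hr.sum]
      rw [← Finset.toLeft_disjSum_toRight (u := s), Finset.sum_disjSum,
        Finset.toLeft_disjSum]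
      have h3 : ∑ i ∈ s.toRight, r (Sum.inr i) * y (Sum.inr i) = 0 :=
        Finset.sum_eq_zero fun i _ => by rw [hx0 i, zero_mul]
      rw [h3, add_zero]
      apply Finset.sum_congr rfl
      intro j _
      rw [map_mul, ev_letter, hu j]
      rfl
    have h2 := letters_indep _ _ h1
    obtain ⟨j | i, hne⟩ := hr.ne
    · apply hne
      by_cases hj : Sum.inl j ∈ s
      · rw [← hu j, h2 j (by simpa using hj), map_zero]
      · exact hr.supp _ hj
    · exact hne (hx0 i)
  have hex : ∀ i : Fin m, ∃ u : FA k J, (v i = N → ev τ u = r (Sum.inr i)) ∧ (v i ≠ N → u = 0) := by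
    intro i
    by_cases h : v i = N
    · have h1 : Hom zd 0 (r (Sum.inr i)) := by
        have := hr.hom (Sum.inr i) (by simp only [hwd, Sum.elim_inr]; omega)
        simpa [hwd, h] using this
      obtain ⟨u, hu⟩ := hU0 _ (hrU _) h1
      exact ⟨u, fun _ => hu, fun h' => absurd h h'⟩
    · exact ⟨0, fun h' => absurd h' h, fun _ => rfl⟩
  choose u hu1 hu2 using hex
  refine ⟨N, hN1, u, hu2, ?_, ?_⟩
  · by_contra hall
    push Not at hall
    have htop : ∀ i, w i = N → r i = 0 := by
      rintro (j | i) hi
      · simp only [hwd, Sum.elim_inl] at hi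
        omega
      · rw [← hu1 i hi, hall i, map_zero]
    obtain ⟨i, hi⟩ := hr.ne
    obtain ⟨t, ht⟩ := exists_coeff hi
    exact ht (no_low_rel y w s N hmin t r hr htop i)
  · have hsplit : ∑ i, ev τ (u i) * x i = - ∑ i ∈ s, (if w i = N then 0 else r i * y i) := by
      rw [eq_neg_iff_add_eq_zero]
      refine Eq.trans ?_ hr.sum
      have h1 : ∑ i, ev τ (u i) * x i = ∑ i ∈ s, (if w i = N then r i * y i else 0) := by
        rw [← Finset.toLeft_disjSum_toRight (u := s), Finset.sum_disjSum]
        have h3 : ∑ j ∈ s.toLeft, (if w (Sum.inl j) = N then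
            r (Sum.inl j) * y (Sum.inl j) else 0) = 0 := by
          apply Finset.sum_eq_zero
          intro j _
          rw [if_neg (by simp only [hwd, Sum.elim_inl]; omega)]
        rw [h3, zero_add]
        symm
        apply Finset.sum_subset_zero_on_sdiff (Finset.subset_univ _)
        · intro i hi
          have hi' : Sum.inr i ∉ s := by simpa using hi
          by_cases h : v i = N
          · rw [hu1 i h, hr.supp _ hi', zero_mul]
          · rw [hu2 i h, map_zero, zero_mul]
        · intro i _
          by_cases h : v i = N
          · rw [if_pos (by simpa [hwd] using h), hu1 i h]; rfl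
          · rw [if_neg (by simpa [hwd] using h), hu2 i h, map_zero, zero_mul]
      rw [h1, ← Finset.sum_add_distrib]
      apply Finset.sum_congr rfl
      intro i _
      split_ifs <;> simp
    rw [hsplit]
    apply neg_mem
    apply sum_mem
    rintro (j | i) _
    · rw [if_neg (by simp only [hwd, Sum.elim_inl]; omega)]
      apply Submodule.subset_span
      left
      exact ⟨j, r (Sum.inl j), by simpa [hwd] using hr.hom (Sum.inl j) (by simp [hwd]), rfl⟩
    · split_ifs with h
      · exact zero_mem _
      · rcases lt_or_ge N (w (Sum.inr i)) with h' | h'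
        · rw [hr.zero _ h', zero_mul]; exact zero_mem _
        · apply Submodule.subset_span
          right
          have hlt : v i < N := lt_of_le_of_ne h' h
          exact ⟨i, r (Sum.inr i), hlt, hr.hom (Sum.inr i) h', rfl⟩

end Pool.Agent.A55u.H76
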